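import Pool.Agent.Helper72.RA.Defs2

set_option autoImplicit false

/-!
# HSUM, WSUM: numerical sums
-/

namespace Pool.Agent.Helper72.RA

open Real Finset MeasureTheory Filter

open scoped Classical

theorem hs_qi_pos {q : ℕ} (hq : 0 < q) (k : ℕ) : 0 < qi q k := by
  have : (0 : ℝ) < q := by exact_mod_cast hq
  unfold qi; positivity

theorem hs_qi_add (q a b : ℕ) : qi q (a + b) = qi q a * qi q b := by
  unfold qi
  rw [pow_add, mul_inv]

theorem hs_pow_qi {q : ℕ} (hq : 0 < q) (a b : ℕ) : (q : ℝ) ^ a * qi q (a + b) = qi q b := by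
  have : (q : ℝ) ^ a ≠ 0 := by
    have : (0 : ℝ) < q := by exact_mod_cast hq
    positivity
  rw [hs_qi_add]
  unfold qi
  field_simp

theorem hs_pow_qi' {q : ℕ} (hq : 0 < q) (a : ℕ) : (q : ℝ) ^ a * qi q a = 1 := by
  have : (q : ℝ) ^ a ≠ 0 := by
    have : (0 : ℝ) < q := by exact_mod_cast hq
    positivity
  unfold qi
  field_simp

theorem hs_pow_le {q : ℕ} (hq : 0 < q) {a b : ℕ} (h : a ≤ b) : (q : ℝ) ^ a ≤ (q : ℝ) ^ b := by
  apply pow_le_pow_right₀ _ h
  exact_mod_cast hq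

theorem hs_qi_le {q : ℕ} (hq : 0 < q) {a b : ℕ} (h : a ≤ b) : qi q b ≤ qi q a := by
  unfold qi
  have : (0 : ℝ) < q := by exact_mod_cast hq
  exact inv_anti₀ (by positivity) (hs_pow_le hq h)

theorem hs_qi_le1 {q : ℕ} (hq : 10 ^ 9 ≤ q) {a : ℕ} (h : 1 ≤ a) : qi q a ≤ 1 / 10 ^ 9 := by
  refine (hs_qi_le (by omega) h).trans ?_
  unfold qi
  rw [pow_one, one_div]
  apply inv_anti₀ (by norm_num)
  exact_mod_cast hq

/-- **HSUM** -/
theorem st_HSUM (hL : ST_LEV) : ST_HSUM := by
  unfold ST_LEV at hL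
  unfold ST_HSUM
  filter_upwards [hL] with q hL m hm1 hm2
  obtain ⟨hq, -, -, -, hU, -, -, hP0, -, -, -, -, hS, -⟩ := hL
  have hq0 : 0 < q := by omega
  have hqr : (0 : ℝ) < q := by exact_mod_cast hq0
  have hm0 : (0 : ℝ) < m := by
    have : 0 < m := lt_of_lt_of_le (by positivity) hm1
    exact_mod_cast this
  have hm2' : (m : ℝ) ≤ 2 * (q : ℝ) ^ 1000 := by exact_mod_cast hm2
  have hPpos : ∀ u, (0 : ℝ) < (Pl q u : ℝ) := fun u =>
    lt_of_lt_of_le (by positivity) (hP0 u)
  have hterm : ∀ u ∈ range (UU q + 1), (m : ℝ) ^ 2 / (Pl q u : ℝ) * (8 * wH q m u) ^ 2 ≤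
      64 * (q : ℝ) ^ 4 * ((Pl q u : ℝ))⁻¹ + 256 * qi q 100 := by
    intro u _
    have hP := hPpos u
    unfold wH
    split_ifs with h
    · have h1 : (m : ℝ) ^ 2 / (Pl q u : ℝ) * (8 * ((q : ℝ) ^ 2 / m)) ^ 2 =
          64 * (q : ℝ) ^ 4 * ((Pl q u : ℝ))⁻¹ := by
        field_simp
        ring
      rw [h1]
      have := hs_qi_pos hq0 100
      linarith
    · have h2 : (q : ℝ) ^ 900 ≤ (Pl q u : ℝ) := by
        have := (not_le.1 h).le
        exact_mod_cast this
      have h3 : ((Pl q u : ℝ))⁻¹ ≤ qi q 900 := by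
        unfold qi
        exact inv_anti₀ (by positivity) h2
      have h4 : (m : ℝ) ^ 2 / (Pl q u : ℝ) * (8 * qi q 600) ^ 2 ≤
          (2 * (q : ℝ) ^ 1000) ^ 2 * qi q 900 * (8 * qi q 600) ^ 2 := by
        rw [div_eq_mul_inv]
        have i1 : (m : ℝ) ^ 2 ≤ (2 * (q : ℝ) ^ 1000) ^ 2 := pow_le_pow_left₀ hm0.le hm2' 2
        have i2 : (m : ℝ) ^ 2 * ((Pl q u : ℝ))⁻¹ ≤ (2 * (q : ℝ) ^ 1000) ^ 2 * qi q 900 :=
          mul_le_mul i1 h3 (inv_nonneg.2 hP.le) (sq_nonneg _)
        exact mul_le_mul_of_nonneg_right i2 (sq_nonneg _)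
      have h5 : (2 * (q : ℝ) ^ 1000) ^ 2 * qi q 900 * (8 * qi q 600) ^ 2 = 256 * qi q 100 := by
        have h6 : (q : ℝ) ^ 2000 * qi q (2000 + 100) = qi q 100 := hs_pow_qi hq0 2000 100
        have h7 : qi q (2000 + 100) = qi q 900 * qi q 600 * qi q 600 := by
          rw [← hs_qi_add, ← hs_qi_add]
        rw [h7, show (q : ℝ) ^ 2000 = (q : ℝ) ^ 1000 * (q : ℝ) ^ 1000 by rw [← pow_add]] at h6
        rw [← h6]
        generalize (q : ℝ) ^ 1000 = Q
        ring
      have h8 : 0 ≤ 64 * (q : ℝ) ^ 4 * ((Pl q u : ℝ))⁻¹ := by positivity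
      linarith
  refine (sum_le_sum hterm).trans ?_
  rw [sum_add_distrib, ← mul_sum, sum_const, card_range, nsmul_eq_mul]
  have h1 : 64 * (q : ℝ) ^ 4 * ∑ u ∈ range (UU q + 1), ((Pl q u : ℝ))⁻¹ ≤
      64 * (q : ℝ) ^ 4 * (2 / 3 * qi q 9) := by gcongr
  have h2 : 64 * (q : ℝ) ^ 4 * (2 / 3 * qi q 9) = 128 / 3 * qi q 5 := by
    have := hs_pow_qi hq0 4 5
    calc 64 * (q : ℝ) ^ 4 * (2 / 3 * qi q 9) = 128 / 3 * ((q : ℝ) ^ 4 * qi q (4 + 5)) := by ring
      _ = _ := by rw [this]
  have h3 : ((UU q + 1 : ℕ) : ℝ) ≤ q := by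
    have : UU q + 1 ≤ q := by omega
    exact_mod_cast this
  have h4 : ((UU q + 1 : ℕ) : ℝ) * (256 * qi q 100) ≤ (q : ℝ) * (256 * qi q 100) := by
    have := hs_qi_pos hq0 100
    gcongr
  have h5 : (q : ℝ) * (256 * qi q 100) = 256 * qi q 99 := by
    have := hs_pow_qi hq0 1 99
    rw [pow_one] at this
    calc (q : ℝ) * (256 * qi q 100) = 256 * ((q : ℝ) * qi q (1 + 99)) := by ring
      _ = _ := by rw [this]
  have h6 := hs_qi_le1 hq (a := 5) (by norm_num)
  have h7 := hs_qi_le1 hq (a := 99) (by norm_num)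
  rw [h2] at h1
  rw [h5] at h4
  have h8 : 128 / 3 * qi q 5 + 256 * qi q 99 ≤ 1 / 1000 := by
    have : (128 : ℝ) / 3 * (1 / 10 ^ 9) + 256 * (1 / 10 ^ 9) ≤ 1 / 1000 := by norm_num
    linarith
  linarith

/-- **WSUM** -/
theorem st_WSUM (hL : ST_LEV) : ST_WSUM := by
  unfold ST_LEV at hL
  unfold ST_WSUM
  filter_upwards [hL] with q hL m hm1 hm2 D
  obtain ⟨hq, -, -, -, hU, -, hPm, hP0, -, hPU, -, -, -, -⟩ := hL
  have hq0 : 0 < q := by omega
  have hqr : (0 : ℝ) < q := by exact_mod_cast hq0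
  have hq9 : (10 : ℝ) ^ 9 ≤ q := by exact_mod_cast hq
  have hm0 : (0 : ℝ) < m := by
    have : 0 < m := lt_of_lt_of_le (by positivity) hm1
    exact_mod_cast this
  have hm1' : (q : ℝ) ^ 1000 ≤ m := by exact_mod_cast hm1
  have hPpos : ∀ u, (0 : ℝ) < (Pl q u : ℝ) := fun u =>
    lt_of_lt_of_le (by positivity) (hP0 u)
  have hPle : ∀ u, u ≤ UU q → (Pl q u : ℝ) ≤ 6 * (q : ℝ) ^ 1350 := fun u hu => by
    refine le_trans ?_ hPU
    exact_mod_cast hPm u (UU q) hu
  have hP1 : ∀ u, (1 : ℝ) ≤ (Pl q u : ℝ) := fun u => by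
    refine le_trans ?_ (hP0 u)
    have h1 : (1 : ℝ) ≤ (q : ℝ) ^ 9 := one_le_pow₀ (by linarith)
    linarith
  have hqi := fun k => hs_qi_pos hq0 k
  have hqq : ∀ k, (q : ℝ) ^ k * qi q k = 1 := fun k => hs_pow_qi' hq0 k
  constructor
  · -- the sum
    have hpt : ∀ k : D.K, 1 / rgl D k ≤
        (if D.ty k = Ty.v ∧ D.lev k = 0 then 40 * (q : ℝ) ^ 999 else 0) +
        (if high D k then 3000 * (Pl q (D.lev k) : ℝ) else 0) +
        (if D.ty k = Ty.xp then (q : ℝ) ^ 1338 else 0) + (q : ℝ) ^ 920 := by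
      intro k
      have hp := hPpos (D.lev k)
      have a1 : (0 : ℝ) < (q : ℝ) ^ 999 := by positivity
      have a2 : (0 : ℝ) < (q : ℝ) ^ 1338 := by positivity
      have a3 : (0 : ℝ) < (q : ℝ) ^ 920 := by positivity
      have b1 : (0 : ℝ) ≤ (if D.ty k = Ty.v ∧ D.lev k = 0 then 40 * (q : ℝ) ^ 999 else 0) := by
        split_ifs <;> positivity
      have b2 : (0 : ℝ) ≤ (if high D k then 3000 * (Pl q (D.lev k) : ℝ) else 0) := by
        split_ifs <;> positivity
      have b3 : (0 : ℝ) ≤ (if D.ty k = Ty.xp then (q : ℝ) ^ 1338 else 0) := by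
        split_ifs <;> positivity
      unfold rgl
      by_cases h1 : D.ty k = Ty.v ∧ D.lev k = 0
      · rw [if_pos h1] at b1 ⊢
        have : 1 / (qi q 999 / 40) = 40 * (q : ℝ) ^ 999 := by
          unfold qi; field_simp
        rw [this, if_pos h1]
        linarith
      · rw [if_neg h1]
        by_cases h2 : high D k
        · rw [if_pos h2, if_pos h2]
          have : 1 / (1 / (3000 * (Pl q (D.lev k) : ℝ))) = 3000 * (Pl q (D.lev k) : ℝ) := by
            field_simp
          rw [this]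
          linarith
        · rw [if_neg h2]
          by_cases h3 : D.ty k = Ty.xp
          · rw [if_pos h3, if_pos h3]
            have : 1 / qi q 1338 = (q : ℝ) ^ 1338 := by unfold qi; field_simp
            rw [this]
            linarith
          · rw [if_neg h3]
            have : 1 / qi q 920 = (q : ℝ) ^ 920 := by unfold qi; field_simp
            rw [this]
            linarith
    refine (sum_le_sum fun k _ => hpt k).trans ?_
    rw [sum_add_distrib, sum_add_distrib, sum_add_distrib, ← sum_filter, ← sum_filter,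
      ← sum_filter, sum_const, sum_const, sum_const, nsmul_eq_mul, nsmul_eq_mul, nsmul_eq_mul]
    have hcK : ((univ : Finset D.K).card : ℝ) ≤ m := by
      have h1 : (univ : Finset D.K).card = m - 2 := D.card_K
      rw [h1]
      exact_mod_cast Nat.sub_le m 2
    have hc1 := D.card_v 0 (by norm_num)
    have hc3 : ((univ.filter fun k => D.ty k = Ty.xp).card : ℝ) = (q : ℝ) ^ 655 := by
      rw [D.card_xp]; push_cast; rfl
    have hc2 : ∑ k ∈ univ.filter (fun k => high D k), 3000 * (Pl q (D.lev k) : ℝ) ≤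
        (q : ℝ) * (3000 * (q * m + 6 * (q : ℝ) ^ 1350)) := by
      have hmaps : ∀ k ∈ univ.filter (fun k => high D k), D.lev k ∈ range (UU q + 1) := by
        intro k hk
        rw [mem_filter] at hk
        rw [mem_range]
        have := D.lev_g k hk.2.1
        omega
      rw [← sum_fiberwise_of_maps_to hmaps]
      have h3 : ∀ u ∈ range (UU q + 1),
          ∑ k ∈ (univ.filter (fun k => high D k)).filter (fun k => D.lev k = u),
            3000 * (Pl q (D.lev k) : ℝ) ≤ 3000 * (q * m + 6 * (q : ℝ) ^ 1350) := by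
        intro u hu
        rw [mem_range] at hu
        have hu' : u ≤ UU q := by omega
        have hp := hPpos u
        calc ∑ k ∈ (univ.filter (fun k => high D k)).filter (fun k => D.lev k = u),
            3000 * (Pl q (D.lev k) : ℝ)
            = ∑ k ∈ (univ.filter (fun k => high D k)).filter (fun k => D.lev k = u),
              3000 * (Pl q u : ℝ) := by
              apply sum_congr rfl
              intro k hk
              rw [mem_filter] at hk
              rw [hk.2]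
          _ = (((univ.filter (fun k => high D k)).filter (fun k => D.lev k = u)).card : ℝ) *
              (3000 * (Pl q u : ℝ)) := by rw [sum_const, nsmul_eq_mul]
          _ ≤ ((q : ℝ) * m / Pl q u + 1) * (3000 * (Pl q u : ℝ)) := by
              have h4 : (((univ.filter (fun k => high D k)).filter
                  (fun k => D.lev k = u)).card : ℝ) ≤ (q : ℝ) * m / Pl q u + 1 := by
                refine le_trans ?_ (D.card_g2 u hu')
                have : ((univ.filter (fun k => high D k)).filter (fun k => D.lev k = u)).card ≤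
                    (univ.filter fun k => D.ty k = Ty.g ∧ D.lev k = u).card := by
                  apply card_le_card
                  intro k hk
                  rw [mem_filter, mem_filter] at hk
                  rw [mem_filter]
                  exact ⟨mem_univ _, hk.1.2.1, hk.2⟩
                exact_mod_cast this
              gcongr
          _ = 3000 * (q * m + (Pl q u : ℝ)) := by
              field_simp
          _ ≤ _ := by
              have := hPle u hu'
              gcongr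
      refine (sum_le_sum h3).trans ?_
      rw [sum_const, card_range, nsmul_eq_mul]
      have h5 : ((UU q + 1 : ℕ) : ℝ) ≤ q := by
        have : UU q + 1 ≤ q := by omega
        exact_mod_cast this
      gcongr
    -- the numerical estimates
    have e1 : (q : ℝ) ^ 1 * (m * (q : ℝ) ^ 999) ≤ (m : ℝ) ^ 2 := by
      have : (q : ℝ) ^ 1 * (m * (q : ℝ) ^ 999) = m * (q : ℝ) ^ 1000 := by ring
      rw [this, sq]
      gcongr
    have e2 : (q : ℝ) ^ 2 * ((q : ℝ) ^ 2 * m) ≤ (m : ℝ) ^ 2 := by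
      have h1 : (q : ℝ) ^ 2 * ((q : ℝ) ^ 2 * m) = (q : ℝ) ^ 4 * m := by ring
      rw [h1, sq]
      have h2 := hs_pow_le hq0 (a := 4) (b := 1000) (by norm_num)
      have h3 := h2.trans hm1'
      gcongr
    have hmm : (q : ℝ) ^ 2000 ≤ (m : ℝ) ^ 2 := by
      have : (q : ℝ) ^ 2000 = ((q : ℝ) ^ 1000) ^ 2 := by ring
      rw [this]
      gcongr
    have e3 : (q : ℝ) ^ 2 * (q : ℝ) ^ 1351 ≤ (m : ℝ) ^ 2 := by
      have : (q : ℝ) ^ 2 * (q : ℝ) ^ 1351 = (q : ℝ) ^ 1353 := by ring
      rw [this]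
      exact (hs_pow_le hq0 (by norm_num)).trans hmm
    have e4 : (q : ℝ) ^ 2 * (q : ℝ) ^ 1993 ≤ (m : ℝ) ^ 2 := by
      have : (q : ℝ) ^ 2 * (q : ℝ) ^ 1993 = (q : ℝ) ^ 1995 := by ring
      rw [this]
      exact (hs_pow_le hq0 (by norm_num)).trans hmm
    have e5 : (q : ℝ) ^ 2 * (m * (q : ℝ) ^ 920) ≤ (m : ℝ) ^ 2 := by
      have h1 : (q : ℝ) ^ 2 * (m * (q : ℝ) ^ 920) = m * (q : ℝ) ^ 922 := by ring
      rw [h1, sq]
      have h2 := (hs_pow_le hq0 (a := 922) (b := 1000) (by norm_num)).trans hm1'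
      gcongr
    have hm3 : (3 : ℝ) * 10 ^ 3 ≤ m := by
      refine le_trans ?_ hm1'
      have := hs_pow_le hq0 (a := 1) (b := 1000) (by norm_num)
      linarith
    have f : ∀ (a x : ℝ) , 0 ≤ x → (q : ℝ) ^ 1 * x ≤ a → x ≤ a / 10 ^ 9 := by
      intro a x hx h
      rw [le_div_iff₀ (by norm_num)]
      rw [pow_one] at h
      nlinarith
    have f2 : ∀ (a x : ℝ) , 0 ≤ x → (q : ℝ) ^ 2 * x ≤ a → x ≤ a / 10 ^ 18 := by
      intro a x hx h
      rw [le_div_iff₀ (by norm_num)]
      have : (10 : ℝ) ^ 18 ≤ (q : ℝ) ^ 2 := by nlinarith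
      nlinarith
    have g1 := f _ _ (by positivity) e1
    have g2 := f2 _ _ (by positivity) e2
    have g3 := f2 _ _ (by positivity) e3
    have g4 := f2 _ _ (by positivity) e4
    have g5 := f2 _ _ (by positivity) e5
    have s1 : ((univ.filter fun k => D.ty k = Ty.v ∧ D.lev k = 0).card : ℝ) *
        (40 * (q : ℝ) ^ 999) ≤ 14 * (m * (q : ℝ) ^ 999) := by
      have a1 : (0 : ℝ) < (q : ℝ) ^ 999 := by positivity
      have a2 : ((univ.filter fun k => D.ty k = Ty.v ∧ D.lev k = 0).card : ℝ) * 40 ≤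
          14 * m := by
        have := hc1
        linarith
      nlinarith
    have s2 : (q : ℝ) * (3000 * (q * m + 6 * (q : ℝ) ^ 1350)) =
        3000 * ((q : ℝ) ^ 2 * m) + 18000 * (q : ℝ) ^ 1351 := by ring
    rw [s2] at hc2
    have s3 : ((univ.filter fun k => D.ty k = Ty.xp).card : ℝ) * (q : ℝ) ^ 1338 =
        (q : ℝ) ^ 1993 := by rw [hc3]; ring
    have s4 : ((univ : Finset D.K).card : ℝ) * (q : ℝ) ^ 920 ≤ m * (q : ℝ) ^ 920 := by
      gcongr
    have hmsq : (0 : ℝ) ≤ (m : ℝ) ^ 2 := by positivity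
    rw [s3]
    have : (14 : ℝ) * ((m : ℝ) ^ 2 / 10 ^ 9) + (3000 + 18000 + 1 + 1) * ((m : ℝ) ^ 2 / 10 ^ 18) ≤
        (m : ℝ) ^ 2 / 10 ^ 5 := by
      linarith
    linarith
  · intro k
    have hp := hPpos (D.lev k)
    have hp1 := hP1 (D.lev k)
    have c1 : qi q 1360 ≤ qi q 999 / 40 := by
      have h1 := hs_qi_add q 999 361
      have h2 := hs_qi_le1 hq (a := 361) (by norm_num)
      have h3 := hqi 999
      have h4 : qi q 1360 = qi q 999 * qi q 361 := h1
      rw [h4]
      nlinarith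
    have c2 : ∀ a, 1 ≤ a → qi q a ≤ 1 / 2 := fun a ha =>
      (hs_qi_le1 hq ha).trans (by norm_num)
    unfold rgl
    split_ifs with h1 h2 h3
    · refine ⟨c1, ?_⟩
      have := c2 999 (by norm_num)
      have := hqi 999
      linarith
    · constructor
      · have h4 : 3000 * (Pl q (D.lev k) : ℝ) ≤ (q : ℝ) ^ 1360 := by
          have h5 := hPle (D.lev k) (D.lev_g k h2.1)
          have h6 : (q : ℝ) ^ 1360 = (q : ℝ) ^ 1350 * (q : ℝ) ^ 10 := by ring
          have h7 : (q : ℝ) ^ 1 ≤ (q : ℝ) ^ 10 := hs_pow_le hq0 (by norm_num)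
          rw [pow_one] at h7
          have h8 : (0 : ℝ) < (q : ℝ) ^ 1350 := by positivity
          rw [h6]
          nlinarith
        unfold qi
        rw [one_div]
        exact inv_anti₀ (by positivity) h4
      · rw [one_div]
        have : (3000 * (Pl q (D.lev k) : ℝ))⁻¹ ≤ (2 : ℝ)⁻¹ :=
          inv_anti₀ (by norm_num) (by linarith)
        linarith
    · exact ⟨hs_qi_le hq0 (by norm_num), c2 _ (by norm_num)⟩
    · exact ⟨hs_qi_le hq0 (by norm_num), c2 _ (by norm_num)⟩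

end Pool.Agent.Helper72.RA
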