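import Pool.Agent.Helper72.RA.Defs2

set_option autoImplicit false

/-!
# OMATCH: stage B, the matching for the slots at `O`
-/

namespace Pool.Agent.Helper72.RA

open Real Finset MeasureTheory Filter

open scoped Classical

section

variable {q m : ℕ} (D : Lay q m)

/-- the kinds `h0, xp, x0, h` -/
def om_KN (a : D.K) : Prop :=
  D.ty a = Ty.h0 ∨ D.ty a = Ty.xp ∨ D.ty a = Ty.x0 ∨ D.ty a = Ty.h

theorem om_kn_of (a : D.K) (h1 : a ≠ D.sv) (h2 : ¬ isF D a) (h3 : ¬ high D a) :
    om_KN D a := by
  unfold om_KN
  rcases h : D.ty a with _ | _ | _ | _ | _ | _ | _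
  · exact absurd ((D.ty_s a).1 h) h1
  · simp
  · simp
  · simp
  · simp
  · exfalso
    by_cases h4 : D.lev a < u0 q
    · exact h2 (Or.inr ⟨h, h4⟩)
    · exact h3 ⟨h, not_lt.1 h4⟩
  · exact absurd (Or.inl h) h2

theorem om_opR_symm {i k : D.K} (h : opR D i k) : opR D k i :=
  ⟨h.1.symm, h.2.2.1, h.2.1, fun h' => h.2.2.2 ⟨h'.2, h'.1⟩⟩

/-- the property of the representative -/
def om_P (e : Sym2 D.K) (r : D.K × D.K) : Prop :=
  e = s(r.1, r.2) ∧ opR D r.1 r.2 ∧
    ((¬ high D r.1 ∧ ¬ high D r.2 ∧ om_KN D r.1) ∨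
      (high D r.2 ∧ (high D r.1 → D.lev r.1 ≤ D.lev r.2)))

theorem om_rep (e : Sym2 D.K) (he : e ∈ OP D) : ∃ r : D.K × D.K, om_P D e r := by
  unfold OP at he
  rw [mem_filter] at he
  obtain ⟨-, i, k, rfl, h⟩ := he
  have h' := om_opR_symm D h
  by_cases hi : high D i <;> by_cases hk : high D k
  · rcases le_total (D.lev i) (D.lev k) with hl | hl
    · exact ⟨(i, k), rfl, h, Or.inr ⟨hk, fun _ => hl⟩⟩
    · exact ⟨(k, i), Sym2.eq_swap, h', Or.inr ⟨hi, fun _ => hl⟩⟩
  · exact ⟨(k, i), Sym2.eq_swap, h', Or.inr ⟨hi, fun hk' => absurd hk' hk⟩⟩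
  · exact ⟨(i, k), rfl, h, Or.inr ⟨hk, fun hi' => absurd hi' hi⟩⟩
  · by_cases hF : isF D i
    · have hF' : ¬ isF D k := fun h2 => h.2.2.2 ⟨hF, h2⟩
      exact ⟨(k, i), Sym2.eq_swap, h', Or.inl ⟨hk, hi, om_kn_of D k h.2.2.1 hF' hk⟩⟩
    · exact ⟨(i, k), rfl, h, Or.inl ⟨hi, hk, om_kn_of D i h.2.1 hF hi⟩⟩

theorem om_tolG_pos (hq : 0 < q) (u : ℕ) : 0 < tolG q u := by
  have hq' : (0 : ℝ) < q := by exact_mod_cast hq
  unfold tolG qi
  split_ifs <;> positivity

theorem om_Pl_pos (hq : 0 < q) (u : ℕ) : (0 : ℝ) < (Pl q u : ℝ) := by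
  unfold Pl
  have : 0 < 3 * q ^ 9 * 2 ^ u := by positivity
  exact_mod_cast this

end

/-- **OMATCH** -/
theorem st_OMATCH (hH : ST_HALL) (hA : ST_ANG) (hW : ST_WIDE) (hN : ST_NARROW)
    (hWS : ST_WIDESZ) (hNS : ST_NARSZ) (hO : ST_OSUM) : ST_OMATCH := by
  unfold ST_ANG at hA
  unfold ST_WIDE at hW
  unfold ST_NARROW at hN
  unfold ST_WIDESZ at hWS
  unfold ST_NARSZ at hNS
  unfold ST_OSUM at hO
  unfold ST_OMATCH
  filter_upwards [hA, hW, hN, hWS, hNS, hO, eventually_ge_atTop 2] with q hA hW hN hWS hNS hO hq2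
  intro m hm1 hm2 D θ hg ta hta
  have hA := (hA m hm1 hm2 D).2 θ ta hta
  have hW := hW m hm1 hm2 D θ ta hta
  have hN := hN m hm1 hm2 D θ ta hta
  have hWS := hWS m hm1 hm2 D θ hg ta hta
  have hNS := hNS m hm1 hm2 D θ hg ta hta
  have hO := hO m hm1 hm2 D
  obtain ⟨-, hA2, hA3, -, -, -⟩ := hA
  have hq0 : 0 < q := by omega
  have hqr : (0 : ℝ) < q := by exact_mod_cast hq0
  have hm0 : 0 < m := lt_of_lt_of_le (by positivity) hm1
  have hmr : (0 : ℝ) < m := by exact_mod_cast hm0
  have hqi : ∀ k, 0 < qi q k := fun k => by unfold qi; positivity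
  -- a target
  have hne : Nonempty (Fin (NN m)) := by
    have h1 : ((0 : ℕ) + 1 : ℝ) * qi q 1401 ≤ π / 2 := by
      have h2 : qi q 1401 ≤ 1 := by
        unfold qi
        apply inv_le_one_of_one_le₀
        apply one_le_pow₀
        exact_mod_cast hq0
      have h3 := Real.pi_gt_three
      have h4 : ((0 : ℕ) + 1 : ℝ) * qi q 1401 = qi q 1401 := by push_cast; ring
      rw [h4]; linarith
    obtain ⟨t, -⟩ := hg.supp 0 h1
    exact ⟨t⟩
  -- sines are positive
  have hsin : ∀ k, k ≠ D.sv → 0 < sin (θ (ta k)) := by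
    intro k hk
    by_cases h : high D k
    · refine lt_of_lt_of_le ?_ (hA3 k h).1
      have := om_Pl_pos hq0 (D.lev k)
      positivity
    · refine lt_of_lt_of_le ?_ (hA2 k hk h).1
      have := hqi 20
      positivity
  -- the representatives
  choose r hr using fun e : {e // e ∈ OP D} => om_rep D e.1 e.2
  set A : {e // e ∈ OP D} → Finset (Fin (NN m)) := fun e =>
    if high D (r e).2 then narT q θ (D.lev (r e).2) (θ (ta (r e).1)) (θ (ta (r e).2))
    else wideT q θ (θ (ta (r e).1)) (θ (ta (r e).2)) with hAdef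
  set cw : ℝ := 7 / 100 * (m : ℝ) ^ 2 * qi q 996 with hcw
  have hcw0 : 0 < cw := by have := hqi 996; rw [hcw]; positivity
  set cn : D.K → ℝ := fun g =>
    35 / 10000 * (m : ℝ) ^ 2 * tolG q (D.lev g) / (Pl q (D.lev g) : ℝ) with hcn
  have hcn0 : ∀ g, 0 < cn g := by
    intro g
    have h1 := om_tolG_pos hq0 (D.lev g)
    have h2 := om_Pl_pos hq0 (D.lev g)
    simp only [hcn]
    positivity
  have hcardW : ∀ e, ¬ high D (r e).2 → cw ≤ ((A e).card : ℝ) := by
    intro e he
    obtain ⟨h1, h2, h3⟩ := hr e
    rcases h3 with h3 | h3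
    · have := (hWS (r e).1 (r e).2 h2.2.1 h2.2.2.1 h3.1 h3.2.1).1
      simp only [hAdef, if_neg he]
      exact this
    · exact absurd h3.1 he
  have hcardN : ∀ e, high D (r e).2 → cn (r e).2 ≤ ((A e).card : ℝ) := by
    intro e he
    obtain ⟨h1, h2, h3⟩ := hr e
    rcases h3 with h3 | h3
    · exact absurd he h3.2.1
    · have := (hNS (r e).1 (r e).2 h2.2.1 h3.1 h3.2).1
      simp only [hAdef, if_pos he]
      exact this
  have hrinj : Function.Injective r := by
    intro e e' h
    have h1 := (hr e).1
    have h2 := (hr e').1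
    apply Subtype.ext
    rw [h1, h2, h]
  obtain ⟨f, hfinj, hfA⟩ := hH {e // e ∈ OP D} (Fin (NN m)) A (by
    intro e
    rw [← card_pos]
    by_cases he : high D (r e).2
    · have := (hcn0 (r e).2).trans_le (hcardN e he)
      exact_mod_cast this
    · have := hcw0.trans_le (hcardW e he)
      exact_mod_cast this) (by
    intro t
    have hsplit := sum_filter_add_sum_filter_not (univ.filter fun e => t ∈ A e)
      (fun e => ¬ high D (r e).2) (fun e => ((A e).card : ℝ)⁻¹)
    refine le_trans (le_of_eq ?_) (le_trans (le_of_eq hsplit.symm)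
      (le_trans (add_le_add ?_ ?_) hO))
    · apply sum_congr
      · ext e
        simp only [mem_filter]
      · intro _ _
        rfl
    · -- wide
      calc ∑ e ∈ (univ.filter fun e => t ∈ A e).filter (fun e => ¬ high D (r e).2),
            ((A e).card : ℝ)⁻¹
          ≤ ∑ e ∈ (univ.filter fun e => t ∈ A e).filter (fun e => ¬ high D (r e).2), cw⁻¹ := by
            apply sum_le_sum
            intro e he
            rw [mem_filter] at he
            exact inv_anti₀ hcw0 (hcardW e he.2)
        _ = (((univ.filter fun e => t ∈ A e).filter (fun e => ¬ high D (r e).2)).card : ℝ) *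
            cw⁻¹ := by rw [sum_const, nsmul_eq_mul]
        _ ≤ ((m : ℝ) * (q : ℝ) ^ 3) * cw⁻¹ := by
            have hc : (((univ.filter fun e => t ∈ A e).filter
                (fun e => ¬ high D (r e).2)).card : ℝ) ≤ (m : ℝ) * (q : ℝ) ^ 3 := by
              have h1 := hW (cos (θ t))
              have h2 : ((univ.filter fun e => t ∈ A e).filter
                  (fun e => ¬ high D (r e).2)).card ≤ m * q ^ 3 := by
                refine le_trans ?_ h1
                apply card_le_card_of_injOn r
                · intro e he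
                  rw [mem_coe, mem_filter, mem_filter] at he
                  obtain ⟨⟨-, ht⟩, hh⟩ := he
                  obtain ⟨g1, g2, g3⟩ := hr e
                  rw [mem_coe, mem_filter]
                  refine ⟨mem_univ _, ?_⟩
                  rcases g3 with g3 | g3
                  · refine ⟨g3.2.2, g2.2.2.1, g3.2.1, ?_⟩
                    simp only [hAdef, if_neg hh, wideT, mem_filter] at ht
                    rw [abs_sub_comm]
                    exact ht.2.2
                  · exact absurd g3.1 hh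
                · exact hrinj.injOn
              exact_mod_cast h2
            gcongr
        _ = (m : ℝ) * (q : ℝ) ^ 3 / (7 / 100 * (m : ℝ) ^ 2 * qi q 996) := by
            rw [hcw, ← div_eq_mul_inv]
    · -- narrow
      have hmaps : ∀ e ∈ (univ.filter fun e => t ∈ A e).filter
          (fun e => ¬ ¬ high D (r e).2), (r e).2 ∈ univ.filter (fun g => high D g) := by
        intro e he
        rw [mem_filter] at he ⊢
        exact ⟨mem_univ _, not_not.1 he.2⟩
      rw [← sum_fiberwise_of_maps_to hmaps]
      apply sum_le_sum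
      intro g hgm
      rw [mem_filter] at hgm
      have hgh := hgm.2
      have hgsv : g ≠ D.sv := by
        intro h
        have h1 := (D.ty_s g).2 h
        rw [hgh.1] at h1
        exact absurd h1 (by decide)
      set F := ((univ.filter fun e => t ∈ A e).filter
          (fun e => ¬ ¬ high D (r e).2)).filter (fun e => (r e).2 = g) with hF
      set l : ℝ := tolG q (D.lev g) * (112 / 100 / (Pl q (D.lev g) : ℝ)) / 20 with hl
      have hl0 : 0 ≤ l := by
        have h1 := om_tolG_pos hq0 (D.lev g)
        have h2 := om_Pl_pos hq0 (D.lev g)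
        rw [hl]; positivity
      have hcount : (F.card : ℝ) ≤ (q : ℝ) ^ 3 * (1 + 24 * l * ((m : ℝ) * (q : ℝ) ^ 11)) := by
        refine le_trans ?_ (hN g hgh (θ t) l hl0)
        have : F.card ≤ (univ.filter fun i : D.K => i ≠ g ∧ i ≠ D.sv ∧
            (high D i → D.lev i ≤ D.lev g) ∧
            |arccos (cos (θ (ta i)) * cos (θ (ta g))) - θ t| ≤ l).card := by
          apply card_le_card_of_injOn (fun e => (r e).1)
          · intro e he
            rw [hF, mem_coe, mem_filter, mem_filter, mem_filter] at he
            obtain ⟨⟨⟨-, ht⟩, hh⟩, hrg⟩ := he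
            have hh := not_not.1 hh
            obtain ⟨g1, g2, g3⟩ := hr e
            rw [mem_coe, mem_filter]
            rcases g3 with g3 | g3
            · exact absurd hh g3.2.1
            · simp only [hAdef, if_pos hh, narT, mem_filter] at ht
              rw [hrg] at ht g2 g3
              refine ⟨mem_univ _, g2.1, g2.2.1, g3.2, ?_⟩
              rw [abs_sub_comm]
              refine ht.2.2.trans ?_
              rw [hl]
              have h1 := om_tolG_pos hq0 (D.lev g)
              have h2 := (hA3 g hgh).2.1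
              gcongr
          · intro e he e' he' h
            rw [hF, mem_coe, mem_filter] at he he'
            apply hrinj
            apply Prod.ext
            · exact h
            · rw [he.2, he'.2]
        exact_mod_cast this
      calc ∑ e ∈ F, ((A e).card : ℝ)⁻¹ ≤ ∑ e ∈ F, (cn g)⁻¹ := by
            apply sum_le_sum
            intro e he
            rw [hF, mem_filter, mem_filter] at he
            have h1 := hcardN e (not_not.1 he.1.2)
            rw [he.2] at h1
            exact inv_anti₀ (hcn0 g) h1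
        _ = (F.card : ℝ) * (cn g)⁻¹ := by rw [sum_const, nsmul_eq_mul]
        _ ≤ ((q : ℝ) ^ 3 * (1 + 24 * l * ((m : ℝ) * (q : ℝ) ^ 11))) * (cn g)⁻¹ := by
            have := hcn0 g
            gcongr
        _ = _ := by simp only [hcn, hl]; rw [← div_eq_mul_inv])
  refine ⟨fun e => if h : e ∈ OP D then f ⟨e, h⟩ else hne.some, ?_, ?_, ?_⟩
  · intro e he
    simp only [dif_pos he]
    have h1 := hfA ⟨e, he⟩
    simp only [hAdef] at h1
    split_ifs at h1
    · simp only [narT, mem_filter] at h1
      exact h1.2.1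
    · simp only [wideT, mem_filter] at h1
      exact h1.2.1
  · intro e he e' he' h
    rw [mem_coe] at he he'
    simp only [dif_pos he, dif_pos he'] at h
    have := hfinj h
    exact congrArg Subtype.val this
  · intro i k hik
    have he : s(i, k) ∈ OP D := by
      unfold OP
      rw [mem_filter]
      exact ⟨mem_univ _, i, k, rfl, hik⟩
    simp only [dif_pos he]
    set e : {e // e ∈ OP D} := ⟨s(i, k), he⟩ with hedef
    have h1 := hfA e
    obtain ⟨g1, g2, g3⟩ := hr e
    -- the bound for the representative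
    have key : |cos (θ (f e)) - cos (θ (ta (r e).1)) * cos (θ (ta (r e).2))| ≤
        bd D (r e).1 (r e).2 * (sin (θ (ta (r e).1)) * sin (θ (ta (r e).2))) := by
      have hs1 := hsin (r e).1 g2.2.1
      have hs2 := hsin (r e).2 g2.2.2.1
      by_cases hh : high D (r e).2
      · rcases g3 with g3 | g3
        · exact absurd hh g3.2.1
        · have h2 := (hNS (r e).1 (r e).2 g2.2.1 hh g3.2).2 (f e) (by
            simp only [hAdef, if_pos hh] at h1
            exact h1)
          refine h2.trans ?_
          have h3 : tolG q (D.lev (r e).2) ≤ bd D (r e).1 (r e).2 := by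
            unfold bd
            rw [if_pos (Or.inr hh)]
            refine le_trans ?_ (le_max_right _ _)
            unfold tolK
            rw [if_pos hh]
          gcongr
      · rcases g3 with g3 | g3
        · have h2 := (hWS (r e).1 (r e).2 g2.2.1 g2.2.2.1 g3.1 g3.2.1).2 (f e) (by
            simp only [hAdef, if_neg hh] at h1
            exact h1)
          refine h2.trans ?_
          have h3 : bd D (r e).1 (r e).2 = qi q 955 := by
            unfold bd
            rw [if_neg]
            push Not
            exact ⟨g3.1, g3.2.1⟩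
          rw [h3]
        · exact absurd g3.1 hh
    have g1' : s(i, k) = s((r e).1, (r e).2) := g1
    rw [Sym2.eq_iff] at g1'
    rcases g1' with ⟨ha, hb⟩ | ⟨ha, hb⟩
    · rw [← ha, ← hb] at key
      exact key
    · rw [← ha, ← hb] at key
      have hbd : bd D i k = bd D k i := by
        unfold bd
        by_cases h5 : high D i ∨ high D k
        · rw [if_pos h5, if_pos h5.symm, max_comm]
        · rw [if_neg h5, if_neg fun h6 => h5 h6.symm]
      rw [hbd, mul_comm (cos (θ (ta i))), mul_comm (sin (θ (ta i)))]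
      exact key

end Pool.Agent.Helper72.RA
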